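import Mathlib
import Pool.Agent.Helper13.TU.Defs

/-!
# TU-13: coordinates of integers of the field `fieldOf c`
-/

set_option autoImplicit false

open NumberField Polynomial Module IntermediateField
open scoped TensorProduct

namespace Pool.Agent.Helper13.TU

/-! ### the polynomial `polyOf c` -/

theorem fo_degree_tail_lt {A : Type*} [CommRing A] (n : ℕ) (a : ℕ → A) :
    (∑ i ∈ Finset.range n, C (a i) * X ^ i : A[X]).degree < (n : WithBot ℕ) := by
  refine (degree_sum_le _ _).trans_lt ?_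
  rw [Finset.sup_lt_iff (by exact WithBot.bot_lt_coe n)]
  intro i hi
  exact (degree_C_mul_X_pow_le i (a i)).trans_lt (by
    exact_mod_cast (Finset.mem_range.mp hi))

theorem fo_coeff_tail {A : Type*} [CommRing A] (n : ℕ) (a : ℕ → A) (k : ℕ) :
    (∑ i ∈ Finset.range n, C (a i) * X ^ i : A[X]).coeff k = if k < n then a k else 0 := by
  rw [finsetSum_coeff]
  simp only [coeff_C_mul, coeff_X_pow, mul_ite, mul_one, mul_zero, Finset.sum_ite_eq,
    Finset.mem_range]

theorem fo_polyOf_monic (c : List ℤ) : (polyOf c).Monic := by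
  unfold polyOf
  exact monic_X_pow_add (fo_degree_tail_lt _ _)

theorem fo_polyOf_natDegree (c : List ℤ) : (polyOf c).natDegree = c.length := by
  have h : (polyOf c).degree = (c.length : WithBot ℕ) := by
    unfold polyOf
    rw [degree_add_eq_left_of_degree_lt]
    · simp
    · rw [degree_X_pow]
      exact fo_degree_tail_lt _ _
  exact natDegree_eq_of_degree_eq_some h

theorem fo_polyOf_coeff_lt (c : List ℤ) (k : ℕ) (hk : k < c.length) :
    (polyOf c).coeff k = c.getD k 0 := by
  unfold polyOf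
  rw [coeff_add, fo_coeff_tail, if_pos hk, coeff_X_pow, if_neg hk.ne, zero_add]

theorem fo_sum_getD_natAbs (c : List ℤ) :
    ∑ i ∈ Finset.range c.length, (c.getD i 0).natAbs = (c.map Int.natAbs).sum := by
  induction c with
  | nil => simp
  | cons a c ih =>
    rw [List.length_cons, Finset.sum_range_succ']
    simp only [List.getD_cons_succ, List.getD_cons_zero, List.map_cons, List.sum_cons]
    rw [ih, add_comm]

theorem fo_getD_map_range {A : Type*} (G : ℕ → A) (n i : ℕ) (z : A) (hi : i < n) :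
    ((List.range n).map G).getD i z = G i := by
  rw [List.getD_eq_getElem _ _ (by simpa using hi)]
  simp

theorem fo_eval₂_polyOf {A : Type*} [CommRing A] (φ : ℤ →+* A) (a : A) (c : List ℤ) :
    eval₂ φ a (polyOf c) =
      a ^ c.length + ∑ i ∈ Finset.range c.length, ((c.getD i 0 : ℤ) : A) * a ^ i := by
  unfold polyOf
  rw [eval₂_add, eval₂_X_pow, eval₂_finsetSum]
  congr 1
  refine Finset.sum_congr rfl fun i _ => ?_
  rw [eval₂_mul, eval₂_C, eval₂_X_pow, eq_intCast]

/-- sum over the embeddings -/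
theorem fo_norm_trace_le {K : Type*} [Field K] [NumberField K] (y : K) (B : ℝ)
    (hB : ∀ σ : K →+* ℂ, ‖σ y‖ ≤ B) : |((Algebra.trace ℚ K y : ℚ) : ℝ)| ≤ finrank ℚ K * B := by
  have h1 : algebraMap ℚ ℂ (Algebra.trace ℚ K y) = ∑ σ : K →ₐ[ℚ] ℂ, σ y :=
    trace_eq_sum_embeddings ℂ
  have h2 : ‖algebraMap ℚ ℂ (Algebra.trace ℚ K y)‖ = |((Algebra.trace ℚ K y : ℚ) : ℝ)| := by
    rw [eq_ratCast, ← Complex.ofReal_ratCast, Complex.norm_real, Real.norm_eq_abs]
  rw [← h2, h1]
  refine (norm_sum_le _ _).trans ?_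
  refine (Finset.sum_le_card_nsmul _ _ B (fun σ _ => hB σ.toRingHom)).trans ?_
  rw [Finset.card_univ, AlgHom.card, nsmul_eq_mul]

section
variable (c : List ℤ) [hirr : Fact (Irreducible ((polyOf c).map (Int.castRingHom ℚ)))]

omit hirr in
theorem fo_mapPoly_monic : ((polyOf c).map (Int.castRingHom ℚ)).Monic :=
  (fo_polyOf_monic c).map _

instance : CharZero (fieldOf c) :=
  charZero_of_injective_algebraMap (algebraMap ℚ (fieldOf c)).injective

instance : NumberField (fieldOf c) where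
  to_finiteDimensional := by
    have := (AdjoinRoot.powerBasis (fo_mapPoly_monic c).ne_zero).finite
    exact this

theorem finrank_fieldOf : finrank ℚ (fieldOf c) = c.length := by
  have h := (AdjoinRoot.powerBasis (fo_mapPoly_monic c).ne_zero).finrank
  rw [AdjoinRoot.powerBasis_dim, (fo_polyOf_monic c).natDegree_map, fo_polyOf_natDegree] at h
  exact h

theorem fo_length_pos' : 1 ≤ c.length := by
  rw [← finrank_fieldOf c]
  exact finrank_pos

theorem fo_root_eq : (AdjoinRoot.root ((polyOf c).map (Int.castRingHom ℚ)) : fieldOf c) ^ c.length +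
    ∑ i ∈ Finset.range c.length, ((c.getD i 0 : ℤ) : fieldOf c) *
      (AdjoinRoot.root ((polyOf c).map (Int.castRingHom ℚ)) : fieldOf c) ^ i = 0 := by
  have h := AdjoinRoot.eval₂_root ((polyOf c).map (Int.castRingHom ℚ))
  rw [eval₂_map, fo_eval₂_polyOf] at h
  exact h

theorem fo_minpoly_root_eq :
    minpoly ℚ (AdjoinRoot.root ((polyOf c).map (Int.castRingHom ℚ)) : fieldOf c) =
    (polyOf c).map (Int.castRingHom ℚ) := by
  have h := AdjoinRoot.minpoly_root (fo_mapPoly_monic c).ne_zero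
  rw [(fo_mapPoly_monic c).leadingCoeff, inv_one, C_1, mul_one] at h
  exact h

theorem fo_aeval_root_polyOf :
    aeval (AdjoinRoot.root ((polyOf c).map (Int.castRingHom ℚ)) : fieldOf c) (polyOf c) = 0 := by
  rw [aeval_def, fo_eval₂_polyOf]
  exact fo_root_eq c

theorem fo_root_isIntegral :
    IsIntegral ℤ (AdjoinRoot.root ((polyOf c).map (Int.castRingHom ℚ)) : fieldOf c) :=
  ⟨polyOf c, fo_polyOf_monic c, fo_aeval_root_polyOf c⟩

omit hirr in
theorem fo_root_bound (z : ℂ) (hc : 1 ≤ c.length) (hz : z ^ c.length +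
    ∑ i ∈ Finset.range c.length, ((c.getD i 0 : ℤ) : ℂ) * z ^ i = 0) : ‖z‖ ≤ RL c := by
  by_contra hlt
  push Not at hlt
  have hS : ((RL c : ℕ) : ℝ) = 1 + ∑ i ∈ Finset.range c.length, |((c.getD i 0 : ℤ) : ℝ)| := by
    unfold RL
    rw [← fo_sum_getD_natAbs]
    push_cast
    simp only [Nat.cast_natAbs, Int.cast_abs]
  set S : ℝ := ∑ i ∈ Finset.range c.length, |((c.getD i 0 : ℤ) : ℝ)| with hSdef
  have hS0 : 0 ≤ S := Finset.sum_nonneg fun i _ => abs_nonneg _
  rw [hS] at hlt
  have hz1 : 1 ≤ ‖z‖ := by linarith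
  obtain ⟨m, hm⟩ : ∃ m, c.length = m + 1 := ⟨c.length - 1, by omega⟩
  have h1 : ‖z‖ ^ c.length ≤ S * ‖z‖ ^ m := by
    have h2 : z ^ c.length = -∑ i ∈ Finset.range c.length, ((c.getD i 0 : ℤ) : ℂ) * z ^ i :=
      eq_neg_of_add_eq_zero_left hz
    rw [← norm_pow, h2, norm_neg, hSdef, Finset.sum_mul]
    refine (norm_sum_le _ _).trans (Finset.sum_le_sum fun i hi => ?_)
    rw [norm_mul, norm_pow]
    have h3 : ‖((c.getD i 0 : ℤ) : ℂ)‖ = |((c.getD i 0 : ℤ) : ℝ)| := by
      rw [← Complex.ofReal_intCast, Complex.norm_real, Real.norm_eq_abs]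
    rw [h3]
    refine mul_le_mul_of_nonneg_left ?_ (abs_nonneg _)
    exact pow_le_pow_right₀ hz1 (by have := Finset.mem_range.mp hi; omega)
  rw [hm, pow_succ, mul_comm] at h1
  have h4 : ‖z‖ ≤ S := le_of_mul_le_mul_right h1 (pow_pos (by linarith) m)
  linarith

theorem fo_sigma_root_bound (σ : fieldOf c →+* ℂ) :
    ‖σ (AdjoinRoot.root ((polyOf c).map (Int.castRingHom ℚ)))‖ ≤ RL c := by
  refine fo_root_bound c _ (fo_length_pos' c) ?_
  have h := congrArg σ (fo_root_eq c)
  rw [map_add, map_zero, map_pow, map_sum] at h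
  simpa only [map_mul, map_pow, map_intCast] using h

/-- the root as an algebraic integer, with the bound for the conjugates -/
theorem exists_prim : ∃ P : Prim (fieldOf c) (RL c),
    ((P.θ : 𝓞 (fieldOf c)) : fieldOf c) = AdjoinRoot.root _ :=
  ⟨{ θ := ⟨AdjoinRoot.root _, fo_root_isIntegral c⟩
     gen := IntermediateField.adjoin_root_eq_top _
     one_le := by unfold RL; omega
     bd := fo_sigma_root_bound c }, rfl⟩

/-! ### the coordinates -/

/-- the coefficients of `f(X) / (X - θ)` -/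
theorem fo_coeff_minpolyDiv_root (m : ℕ) : ∀ i : ℕ, i + m = c.length →
    (minpolyDiv ℚ (AdjoinRoot.root ((polyOf c).map (Int.castRingHom ℚ)) : fieldOf c)).coeff i =
      ∑ k ∈ Finset.range m, (((polyOf c).coeff (i + 1 + k) : ℤ) : fieldOf c) *
        (AdjoinRoot.root ((polyOf c).map (Int.castRingHom ℚ)) : fieldOf c) ^ k := by
  induction m with
  | zero =>
    intro i hi
    rw [Finset.range_zero, Finset.sum_empty]
    refine coeff_eq_zero_of_natDegree_lt ?_
    refine (natDegree_minpolyDiv_lt (Algebra.IsIntegral.isIntegral _)).trans_le ?_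
    rw [fo_minpoly_root_eq, (fo_polyOf_monic c).natDegree_map, fo_polyOf_natDegree]
    exact hi.ge
  | succ m ih =>
    intro i hi
    rw [coeff_minpolyDiv, ih (i + 1) (by omega), fo_minpoly_root_eq, Finset.sum_range_succ',
      Finset.sum_mul, add_comm]
    congr 1
    · refine Finset.sum_congr rfl fun k _ => ?_
      rw [pow_succ, mul_assoc, show i + 1 + 1 + k = i + 1 + (k + 1) by omega]
    · simp

theorem fo_isIntegral_coeff (i : ℕ) (hi : i < c.length) : IsIntegral ℤ
    ((minpolyDiv ℚ (AdjoinRoot.root ((polyOf c).map (Int.castRingHom ℚ)) : fieldOf c)).coeff i) := by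
  rw [fo_coeff_minpolyDiv_root c (c.length - i) i (by omega)]
  refine IsIntegral.sum _ fun k _ => ?_
  refine IsIntegral.mul ?_ ((fo_root_isIntegral c).pow k)
  exact isIntegral_algebraMap (x := (polyOf c).coeff (i + 1 + k))

theorem fo_norm_coeff_le (i : ℕ) (hi : i < c.length) (σ : fieldOf c →+* ℂ) :
    ‖σ ((minpolyDiv ℚ
      (AdjoinRoot.root ((polyOf c).map (Int.castRingHom ℚ)) : fieldOf c)).coeff i)‖ ≤
      (RL c : ℝ) ^ (c.length + 1) := by
  have hS : ((RL c : ℕ) : ℝ) =
      ∑ i ∈ Finset.range (c.length + 1), |(((polyOf c).coeff i : ℤ) : ℝ)| := by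
    have h1 : (polyOf c).coeff c.length = 1 := by
      have := (fo_polyOf_monic c).coeff_natDegree
      rwa [fo_polyOf_natDegree] at this
    rw [Finset.sum_range_succ, h1]
    unfold RL
    rw [← fo_sum_getD_natAbs]
    push_cast
    simp only [Nat.cast_natAbs, Int.cast_abs, abs_one]
    rw [add_comm]
    congr 1
    refine Finset.sum_congr rfl fun j hj => ?_
    rw [fo_polyOf_coeff_lt c j (Finset.mem_range.mp hj)]
  have hR1 : (1 : ℝ) ≤ (RL c : ℝ) := by
    exact_mod_cast (show 1 ≤ RL c by unfold RL; omega)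
  have h2 : ∑ k ∈ Finset.range (c.length - i), |(((polyOf c).coeff (i + 1 + k) : ℤ) : ℝ)| ≤
      (RL c : ℝ) := by
    rw [hS, show c.length + 1 = (i + 1) + (c.length - i) by omega, Finset.sum_range_add]
    have : 0 ≤ ∑ x ∈ Finset.range (i + 1), |(((polyOf c).coeff x : ℤ) : ℝ)| :=
      Finset.sum_nonneg fun i _ => abs_nonneg _
    linarith
  rw [fo_coeff_minpolyDiv_root c (c.length - i) i (by omega), map_sum]
  calc ‖∑ k ∈ Finset.range (c.length - i), σ ((((polyOf c).coeff (i + 1 + k) : ℤ) : fieldOf c) *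
        (AdjoinRoot.root ((polyOf c).map (Int.castRingHom ℚ)) : fieldOf c) ^ k)‖
      ≤ ∑ k ∈ Finset.range (c.length - i), |(((polyOf c).coeff (i + 1 + k) : ℤ) : ℝ)| *
          (RL c : ℝ) ^ c.length := by
        refine (norm_sum_le _ _).trans (Finset.sum_le_sum fun k hk => ?_)
        rw [map_mul, map_pow, map_intCast, norm_mul, norm_pow]
        have h3 : ‖(((polyOf c).coeff (i + 1 + k) : ℤ) : ℂ)‖ =
            |(((polyOf c).coeff (i + 1 + k) : ℤ) : ℝ)| := by
          rw [← Complex.ofReal_intCast, Complex.norm_real, Real.norm_eq_abs]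
        rw [h3]
        refine mul_le_mul_of_nonneg_left ?_ (abs_nonneg _)
        refine (pow_le_pow_left₀ (norm_nonneg _) (fo_sigma_root_bound c σ) k).trans ?_
        exact pow_le_pow_right₀ hR1 (by have := Finset.mem_range.mp hk; omega)
    _ = (∑ k ∈ Finset.range (c.length - i), |(((polyOf c).coeff (i + 1 + k) : ℤ) : ℝ)|) *
          (RL c : ℝ) ^ c.length := by rw [Finset.sum_mul]
    _ ≤ (RL c : ℝ) * (RL c : ℝ) ^ c.length :=
        mul_le_mul_of_nonneg_right h2 (pow_nonneg (by linarith) _)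
    _ = (RL c : ℝ) ^ (c.length + 1) := by rw [pow_succ, mul_comm]

/-- coordinates of `f'(θ) x` -/
theorem exists_coords (x : 𝓞 (fieldOf c)) (T : ℕ)
    (hT : ∀ σ : fieldOf c →+* ℂ, ‖σ (x : fieldOf c)‖ ≤ T) :
    ∃ g : List ℤ, g.length = c.length ∧ (∀ a ∈ g, a.natAbs ≤ c.length * T * RL c ^ (c.length + 1)) ∧
      ∑ i ∈ Finset.range c.length, ((g.getD i 0 : ℤ) : fieldOf c) * AdjoinRoot.root _ ^ i =
        aeval (AdjoinRoot.root ((polyOf c).map (Int.castRingHom ℚ)) : fieldOf c)
          (derivative (polyOf c)) * (x : fieldOf c) := by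
  set θ : fieldOf c := AdjoinRoot.root ((polyOf c).map (Int.castRingHom ℚ)) with hθ
  have hint : ∀ i, i < c.length → ∃ g : ℤ, (g : ℚ) =
      Algebra.trace ℚ (fieldOf c) ((x : fieldOf c) * (minpolyDiv ℚ θ).coeff i) := by
    intro i hi
    have h1 : IsIntegral ℤ ((x : fieldOf c) * (minpolyDiv ℚ θ).coeff i) :=
      IsIntegral.mul x.isIntegral_coe (fo_isIntegral_coeff c i hi)
    have h2 : IsIntegral ℤ
        (Algebra.trace ℚ (fieldOf c) ((x : fieldOf c) * (minpolyDiv ℚ θ).coeff i)) :=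
      Algebra.isIntegral_trace h1
    obtain ⟨g, hg⟩ := IsIntegrallyClosed.isIntegral_iff.mp h2
    exact ⟨g, by simpa using hg⟩
  choose! G hG using hint
  refine ⟨(List.range c.length).map G, by simp, ?_, ?_⟩
  · intro a ha
    obtain ⟨i, hi, rfl⟩ := List.mem_map.mp ha
    have hi' : i < c.length := List.mem_range.mp hi
    have h1 : |((Algebra.trace ℚ (fieldOf c)
        ((x : fieldOf c) * (minpolyDiv ℚ θ).coeff i) : ℚ) : ℝ)| ≤
        finrank ℚ (fieldOf c) * ((T : ℝ) * (RL c : ℝ) ^ (c.length + 1)) := by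
      refine fo_norm_trace_le _ _ fun σ => ?_
      rw [map_mul, norm_mul]
      exact mul_le_mul (hT σ) (fo_norm_coeff_le c i hi' σ) (norm_nonneg _) (Nat.cast_nonneg _)
    rw [← hG i hi', finrank_fieldOf] at h1
    have h2 : (((G i).natAbs : ℕ) : ℝ) ≤
        ((c.length * T * RL c ^ (c.length + 1) : ℕ) : ℝ) := by
      rw [Nat.cast_natAbs, Int.cast_abs]
      push_cast
      push_cast at h1
      linarith
    exact_mod_cast h2
  · set pb : PowerBasis ℚ (fieldOf c) := AdjoinRoot.powerBasis (fo_mapPoly_monic c).ne_zero with hpb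
    have hgen : pb.gen = θ := rfl
    have hdim : pb.dim = c.length := by
      rw [hpb, AdjoinRoot.powerBasis_dim, (fo_polyOf_monic c).natDegree_map, fo_polyOf_natDegree]
    set D : fieldOf c := aeval θ (derivative (polyOf c)) with hD
    have hD' : aeval pb.gen (derivative (minpoly ℚ pb.gen)) = D := by
      have h1 : minpoly ℚ pb.gen = (polyOf c).map (algebraMap ℤ ℚ) := fo_minpoly_root_eq c
      rw [h1, derivative_map, aeval_map_algebraMap, hgen]
    have hD0 : D ≠ 0 := by
      rw [← hD']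
      exact (Algebra.IsSeparable.isSeparable ℚ pb.gen).aeval_derivative_ne_zero
        (minpoly.aeval _ _)
    have hrepr : ∀ i : Fin pb.dim, pb.basis.repr (D * (x : fieldOf c)) i = (G i : ℚ) := by
      intro i
      have h1 := pb.basis.traceDual.traceDual_repr_apply (D * (x : fieldOf c)) i
      rw [Module.Basis.traceDual_traceDual] at h1
      rw [h1, Algebra.traceForm_apply, Module.Basis.traceDual_powerBasis_eq, hD',
        hG i (hdim ▸ i.2), hgen]
      congr 1
      field_simp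
    rw [← pb.basis.sum_repr (D * (x : fieldOf c)), ← hdim, Finset.sum_range]
    refine Finset.sum_congr rfl fun i _ => ?_
    rw [hrepr, fo_getD_map_range _ _ _ _ i.2, pb.basis_eq_pow, hgen, Algebra.smul_def]
    simp

omit hirr in
theorem fo_exists_charpoly_aux {K : Type*} [Field K] [NumberField K] (x : (𝓞 K)ˣ) (T : ℕ)
    (hT1 : 1 ≤ T) (hT : ∀ σ : K →+* ℂ, ‖σ ((x : 𝓞 K) : K)‖ ≤ T) :
    ∃ P : ℤ[X], P.Monic ∧ P.natDegree = finrank ℚ K ∧ aeval ((x : 𝓞 K) : K) P = 0 ∧
      (P.coeff 0).natAbs = 1 ∧ ∀ i, (P.coeff i).natAbs ≤ (2 * T) ^ finrank ℚ K := by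
  set y : K := ((x : 𝓞 K) : K) with hy
  have hyint : IsIntegral ℤ y := (x : 𝓞 K).isIntegral_coe
  have hyQ : IsIntegral ℚ y := Algebra.IsIntegral.isIntegral y
  set d := finrank ℚ K with hd
  have hd1 : 1 ≤ d := finrank_pos
  have hmin : minpoly ℚ y = (minpoly ℤ y).map (algebraMap ℤ ℚ) :=
    minpoly.isIntegrallyClosed_eq_field_fractions' ℚ hyint
  set q := minpoly ℤ y with hq
  have hqm : q.Monic := minpoly.monic hyint
  have hqdeg : q.natDegree ≤ d := by
    have h1 := minpoly.natDegree_le (A := ℚ) y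
    rwa [hmin, hqm.natDegree_map] at h1
  -- the constant coefficient
  have hq0 : (q.coeff 0).natAbs = 1 := by
    have h1 : |(RingOfIntegers.norm ℚ (x : 𝓞 K) : ℚ)| = 1 :=
      NumberField.isUnit_iff_norm.mp x.isUnit
    rw [RingOfIntegers.coe_norm, ← hy, Algebra.norm_eq_norm_adjoin ℚ, abs_pow] at h1
    have hfin : finrank ℚ⟮y⟯ K ≠ 0 := finrank_pos.ne'
    have h2 : |Algebra.norm ℚ (AdjoinSimple.gen ℚ y)| = 1 :=
      (pow_eq_one_iff_of_nonneg (abs_nonneg _) hfin).mp h1
    have h3 := Algebra.PowerBasis.norm_gen_eq_coeff_zero_minpoly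
      (IntermediateField.adjoin.powerBasis hyQ)
    rw [IntermediateField.adjoin.powerBasis_gen, IntermediateField.minpoly_gen, hmin,
      coeff_map] at h3
    have h5 := h2.symm.trans (congrArg abs h3)
    rw [abs_mul, abs_pow, abs_neg, abs_one, one_pow, one_mul, eq_intCast] at h5
    have h4 : |q.coeff 0| = 1 := by exact_mod_cast h5.symm
    rw [← Int.natCast_natAbs] at h4
    exact_mod_cast h4
  -- the bound for the coefficients
  have hqb : ∀ i, (((q.coeff i).natAbs : ℕ) : ℝ) ≤
      (T : ℝ) ^ d * (d.choose (d / 2) : ℝ) := by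
    intro i
    have h1 := NumberField.Embeddings.coeff_bdd_of_norm_le (A := ℂ) hT i
    rw [hmin, coeff_map, max_eq_left (by exact_mod_cast hT1)] at h1
    refine le_trans (le_of_eq ?_) h1
    rw [Nat.cast_natAbs, Int.cast_abs, eq_intCast, Int.norm_cast_rat, Int.norm_eq_abs]
  have hch : 2 * (d.choose (d / 2)) ≤ 2 ^ d := by
    obtain ⟨e, he⟩ : ∃ e, d = e + 1 := ⟨d - 1, by omega⟩
    rcases Nat.eq_zero_or_pos (d / 2) with h0 | h0
    · have : d = 1 := by omega
      rw [this]; decide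
    · obtain ⟨k, hk⟩ : ∃ k, d / 2 = k + 1 := ⟨d / 2 - 1, by omega⟩
      rw [hk, he, Nat.choose_succ_succ]
      have h2 : e.choose k + e.choose (k + 1) ≤ 2 ^ e := by
        rw [← Nat.sum_range_choose]
        have hsub : ({k, k + 1} : Finset ℕ) ⊆ Finset.range (e + 1) := by
          intro j hj
          simp only [Finset.mem_insert, Finset.mem_singleton] at hj
          rw [Finset.mem_range]
          omega
        have h3 := Finset.sum_le_sum_of_subset (f := fun j => e.choose j) hsub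
        rwa [Finset.sum_pair (by omega)] at h3
      rw [pow_succ, Nat.succ_eq_add_one]
      omega
  have hTd : (0 : ℝ) ≤ (T : ℝ) ^ d := by positivity
  have hbound : (T : ℝ) ^ d * (d.choose (d / 2) : ℝ) * 2 ≤ ((2 * T : ℕ) : ℝ) ^ d := by
    have h1 : ((2 * (d.choose (d / 2)) : ℕ) : ℝ) ≤ ((2 ^ d : ℕ) : ℝ) := by exact_mod_cast hch
    push_cast at h1 ⊢
    rw [mul_pow]
    nlinarith
  by_cases hcase : q.natDegree = d
  · refine ⟨q, hqm, hcase, minpoly.aeval ℤ y, hq0, fun i => ?_⟩
    have h1 : (((q.coeff i).natAbs : ℕ) : ℝ) ≤ (((2 * T) ^ d : ℕ) : ℝ) := by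
      push_cast
      push_cast at hbound
      have := hqb i
      have h0 : (0 : ℝ) ≤ (T : ℝ) ^ d * (d.choose (d / 2) : ℝ) := by positivity
      linarith
    exact_mod_cast h1
  · have hlt : q.natDegree < d := lt_of_le_of_ne hqdeg hcase
    set e := d - q.natDegree with he
    have he1 : e ≠ 0 := by omega
    have hM : (X ^ e + 1 : ℤ[X]).Monic := by
      have := monic_X_pow_add_C (1 : ℤ) he1
      simpa using this
    refine ⟨q * (X ^ e + 1), hqm.mul hM, ?_, ?_, ?_, fun i => ?_⟩
    · rw [hqm.natDegree_mul hM]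
      have h1 : (X ^ e + 1 : ℤ[X]).natDegree = e := by
        have := natDegree_X_pow_add_C (n := e) (r := (1 : ℤ))
        simpa using this
      rw [h1]
      omega
    · rw [map_mul, minpoly.aeval, zero_mul]
    · rw [mul_coeff_zero, coeff_add, coeff_X_pow, if_neg (Ne.symm he1), coeff_one_zero, zero_add,
        mul_one]
      exact hq0
    · rw [mul_add, mul_one, coeff_add, coeff_mul_X_pow']
      have h1 : (((q.coeff i).natAbs : ℕ) : ℝ) ≤ (T : ℝ) ^ d * (d.choose (d / 2) : ℝ) := hqb i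
      have h2 : ((((if e ≤ i then q.coeff (i - e) else 0).natAbs : ℕ)) : ℝ) ≤
          (T : ℝ) ^ d * (d.choose (d / 2) : ℝ) := by
        split_ifs
        · exact hqb _
        · simp only [Int.natAbs_zero, Nat.cast_zero]
          positivity
      have h3 := Int.natAbs_add_le (if e ≤ i then q.coeff (i - e) else 0) (q.coeff i)
      have h4 : ((((if e ≤ i then q.coeff (i - e) else 0) + q.coeff i).natAbs : ℕ) : ℝ) ≤
          (((2 * T) ^ d : ℕ) : ℝ) := by
        have h5 : ((((if e ≤ i then q.coeff (i - e) else 0) + q.coeff i).natAbs : ℕ) : ℝ) ≤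
            (((if e ≤ i then q.coeff (i - e) else 0).natAbs + (q.coeff i).natAbs : ℕ) : ℝ) := by
          exact_mod_cast h3
        push_cast at h5 ⊢
        push_cast at hbound
        linarith
      exact_mod_cast h4

/-- coefficients of the characteristic polynomial of a unit -/
theorem exists_charpoly (x : (𝓞 (fieldOf c))ˣ) (T : ℕ) (hT1 : 1 ≤ T)
    (hT : ∀ σ : fieldOf c →+* ℂ, ‖σ ((x : 𝓞 (fieldOf c)) : fieldOf c)‖ ≤ T) :
    ∃ P : List ℤ, P.length = c.length ∧ (∀ a ∈ P, a.natAbs ≤ (2 * T) ^ c.length) ∧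
      (P.getD 0 0).natAbs = 1 ∧
      ((x : 𝓞 (fieldOf c)) : fieldOf c) ^ c.length +
        ∑ i ∈ Finset.range c.length,
          ((P.getD i 0 : ℤ) : fieldOf c) * ((x : 𝓞 (fieldOf c)) : fieldOf c) ^ i = 0 := by
  obtain ⟨P, hPm, hPdeg, hP0, hPc, hPb⟩ := fo_exists_charpoly_aux x T hT1 hT
  rw [finrank_fieldOf] at hPdeg
  refine ⟨(List.range c.length).map P.coeff, by simp, ?_, ?_, ?_⟩
  · intro a ha
    obtain ⟨i, hi, rfl⟩ := List.mem_map.mp ha
    have := hPb i
    rwa [finrank_fieldOf] at this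
  · rw [fo_getD_map_range _ _ _ _ (fo_length_pos' c)]
    exact hPc
  · rw [hPm.as_sum, hPdeg, aeval_def, eval₂_add, eval₂_X_pow, eval₂_finsetSum] at hP0
    rw [← hP0]
    congr 1
    refine Finset.sum_congr rfl fun i hi => ?_
    rw [fo_getD_map_range _ _ _ _ (Finset.mem_range.mp hi), eval₂_mul, eval₂_C, eval₂_X_pow,
      eq_intCast]

end

end Pool.Agent.Helper13.TU
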